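import Pool.Agent.X309.BB4
import Pool.Agent.Y683.Cent
import Pool.Agent.W765.HK.Pair
import Pool.Agent.W216.CY.Div
import Pool.Agent.W287.HK.Basic
import Pool.Agent.W571.HK.Cls
import Pool.Agent.W53.HK.Fp
import Pool.Agent.W366.HK.Fpr
import Pool.Agent.W585.HK.LAT
import Pool.Agent.W692.HK.Ker
import Pool.Agent.W584.HK.CNT
import Pool.Agent.W513.HK.Divr
import Pool.Agent.W822.HK.MU
import Pool.Agent.W240.HK.Count
import Pool.Agent.W856.HK.Dec
import Pool.Agent.W636.HK.Gauss
import Pool.Agent.W348.HK.Pois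

/-!
# The formula of Beilinson and Bloch in the towers `K(C P^∞)`, `P` a prime of degree one

Let `R` be the ring of integers of an imaginary quadratic field `K` of any class number.  We consider
the smooth projective varieties `X` over `K` and the codimensions `m ≥ 1` for which the Galois
representation `H^(2m-1)(X)` is a direct sum of Hecke characters `ψ j` of `K`; their types are
`(a j, b j)` with `a j + b j = 2 m - 1` (the Hodge types).  Examples are all products of elliptic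
curves with complex multiplication by orders of `K`, and everything cut out by correspondences in them.

Let `P` be a prime ideal of degree one of `K`, unramified over an odd prime number `p`, let `C` be an
ideal prime to `P` and `K(C P ^ k)` the ray class field of conductor `C P ^ k`.

(A) A character `χ` of finite order with the conductor `C P ^ k` is ramified at `P` so much that all
the functions `L(H^(2m-1)(X) ⊗ χ, s)` are entire and not zero at the centre `s = m`.  Precisely: let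
`0 < κ ≤ 1/2`.  There is a `Q₀` such that this is true for all `P`, all `k ≥ 12 / κ` with
`Q = p ^ k ≥ Q₀`, all `C` with `N(C) ≤ Q ^ (1/2 - κ)`, all `χ` with the conductor `C P ^ k`, all `m` and
all `X` such that the conductors of the `ψ j` have norms at most `Q ^ (κ / 12)` and
`|a j - b j| ≤ Q ^ (1/2)`.

(B) So the order of vanishing of `L(H^(2m-1)(X_K(C P ^ k)), s)` at `s = m` does not depend on `k` for
`k ≥ k₀`, where `k₀` can be chosen simultaneously for all codimensions `m` and all `X` with bounded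
conductors of the `ψ j` and bounded differences `|a j - b j|`, for instance for all `X` that are
products of at most `W` elliptic curves of this kind with conductors dividing a given ideal.  The
formula of Beilinson and Bloch predicts that the dimension of `CH^m(X_K(C P ^ k))_0` is the same for
all `k ≥ k₀`.

The method (from the library): for a character of order at least `N^(2/3 + ε)`, `N` the norm of the
conductor, the central values of the twists do not vanish, since a suitable mean over the Galois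
conjugates does not vanish; the algebraicity of the values is used for all types simultaneously.
-/

set_option autoImplicit false

open Complex IsDedekindDomain

namespace Pool.Agent.Results.MP_0b9e0b_ag.DegreeOneTowers

/-- The norm `N(I)` of an ideal (`0` for the zero ideal, whose residue ring is infinite). -/
noncomputable def norm {R : Subring ℂ} (I : Ideal R) : ℝ := (Nat.card (R ⧸ I) : ℝ)

/-- `θ`, a function on the ideals of `R`, is a primitive Hecke character of conductor `q` and infinity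
type `(a, b)`: it is multiplicative, vanishes exactly at the zero ideal and the ideals not prime to
`q`, satisfies `θ((α)) = α ^ a * conj α ^ b` for `α ≡ 1 mod q`, and this fails for every strictly
larger ideal `q'` in place of `q`.  For `a = b = 0` these are the primitive characters of finite
order. -/
structure IsHecke {R : Subring ℂ} (a b : ℕ) (q : Ideal R) (θ : Ideal R → ℂ) : Prop where
  ne_bot : q ≠ ⊥
  mul : ∀ I J : Ideal R, θ (I * J) = θ I * θ J
  eq_zero : ∀ I : Ideal R, θ I = 0 ↔ (I = ⊥ ∨ ¬ IsCoprime I q)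
  principal : ∀ α : R, α ≠ 0 → α - 1 ∈ q →
    θ (Ideal.span {α}) = (α : ℂ) ^ a * (starRingEnd ℂ) (α : ℂ) ^ b
  primitive : ∀ q' : Ideal R, q < q' → ∃ α : R, α ≠ 0 ∧ α - 1 ∈ q' ∧ IsCoprime (Ideal.span {α}) q ∧
    θ (Ideal.span {α}) ≠ (α : ℂ) ^ a * (starRingEnd ℂ) (α : ℂ) ^ b

/-- `P` is a prime ideal of degree one, unramified over the odd prime number `p`. -/
structure IsDegreeOne {R : Subring ℂ} (P : Ideal R) (p : ℕ) : Prop where
  prime : p.Prime
  odd : p ≠ 2
  isPrime : P.IsPrime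
  norm_eq : norm P = p
  unramified : (p : R) ∉ P ^ 2

/-- `V` is the direct sum of the Hecke characters `ψ 1, …, ψ n` of types `(a j, b j)` with
`a j + b j = 2 m - 1`, conductors of norm at most `B` and `|a j - b j| ≤ W`. -/
def IsSum {R : Subring ℂ} (m n : ℕ) (a b : Fin n → ℕ) (ψ : Fin n → Ideal R → ℂ) (W B : ℝ) : Prop :=
  ∀ j, a j + b j = 2 * m - 1 ∧ |(a j : ℝ) - b j| ≤ W ∧
    ∃ f : Ideal R, norm f ≤ B ∧ IsHecke (a j) (b j) f (ψ j)

/-- `L(V ⊗ χ, s)` is entire and not zero at `s = m`: the primitive Hecke characters `θ j` of `ψ j * χ`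
exist, and the Euler product of all `(1 - θ j(P) N(P)^(-s))⁻¹` for `Re s > m + 1/2` extends to an
entire function `L` with `L(m) ≠ 0`. -/
def Nonvanishing {R : Subring ℂ} (m n : ℕ) (a b : Fin n → ℕ) (ψ : Fin n → Ideal R → ℂ)
    (χ : Ideal R → ℂ) : Prop :=
  ∃ (θ : Fin n → Ideal R → ℂ) (L : ℂ → ℂ),
    (∀ j, (∃ q : Ideal R, IsHecke (a j) (b j) q (θ j)) ∧
      ∀ I : Ideal R, ψ j I * χ I ≠ 0 → θ j I = ψ j I * χ I) ∧
    Differentiable ℂ L ∧
    (∀ s : ℂ, (m : ℝ) + 1 / 2 < s.re → HasProd (fun P : HeightOneSpectrum R =>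
      ∏ j, (1 - θ j P.asIdeal * (norm P.asIdeal : ℂ) ^ (-s))⁻¹) (L s)) ∧
    L m ≠ 0

/-- All primitive characters of finite order whose conductor divides `q`: the characters of the Galois
group of the ray class field `K(q)`. -/
def Modulo {R : Subring ℂ} (q : Ideal R) : Set (Ideal R → ℂ) :=
  {χ | ∃ c : Ideal R, IsHecke 0 0 c χ ∧ q ≤ c}

/-- `L` is entire and it is the `L`-function of `V` over `K(q)`: for `Re s > m + 1/2` it is the product
over all primes `P` of `K`, all `j` and all characters `χ` of the Galois group of `K(q) / K` of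
`(1 - θ j χ (P) N(P)^(-s))⁻¹`, where `θ j χ` is the primitive Hecke character of `ψ j * χ`. -/
def IsLFunction {R : Subring ℂ} (m n : ℕ) (a b : Fin n → ℕ) (ψ : Fin n → Ideal R → ℂ)
    (q : Ideal R) (L : ℂ → ℂ) : Prop :=
  Differentiable ℂ L ∧ ∃ θ : Fin n → (Ideal R → ℂ) → Ideal R → ℂ,
    (∀ j, ∀ χ ∈ Modulo q, (∃ c : Ideal R, IsHecke (a j) (b j) c (θ j χ)) ∧
      ∀ I : Ideal R, ψ j I * χ I ≠ 0 → θ j χ I = ψ j I * χ I) ∧
    ∀ s : ℂ, (m : ℝ) + 1 / 2 < s.re → HasProd (fun P : HeightOneSpectrum R =>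
      ∏ j, ∏ᶠ χ ∈ Modulo q, (1 - θ j χ P.asIdeal * (norm P.asIdeal : ℂ) ^ (-s))⁻¹) (L s)

theorem isHecke_iff {R : Subring ℂ} (a b : ℕ) (f : Ideal R) (ψ : Ideal R → ℂ) :
    IsHecke a b f ψ ↔ Pool.Agent.X309.HT a b f ψ :=
  ⟨fun h => ⟨h.ne_bot, h.mul, h.eq_zero, h.principal, h.primitive⟩,
    fun h => ⟨h.ne, h.mul, h.zero, h.princ, h.prim⟩⟩

theorem isHecke_zero {R : Subring ℂ} (f : Ideal R) (ψ : Ideal R → ℂ) :
    IsHecke 0 0 f ψ ↔ Pool.Agent.W192.HK.HC 0 f ψ := by
  constructor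
  · intro h
    refine ⟨h.ne_bot, h.mul, h.eq_zero, fun α h1 h2 => ?_, fun q' h1 => ?_⟩
    · rw [h.principal α h1 h2, pow_zero, pow_zero, mul_one]
    · obtain ⟨α, h2, h3, h4, h5⟩ := h.primitive q' h1
      refine ⟨α, h2, h3, h4, ?_⟩
      rwa [pow_zero, pow_zero, mul_one, ← pow_zero (α : ℂ)] at h5
  · intro h
    refine ⟨h.ne, h.mul, h.zero, fun α h1 h2 => ?_, fun q' h1 => ?_⟩
    · rw [h.princ α h1 h2, pow_zero, pow_zero, mul_one]
    · obtain ⟨α, h2, h3, h4, h5⟩ := h.prim q' h1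
      refine ⟨α, h2, h3, h4, ?_⟩
      rwa [pow_zero, pow_zero, mul_one, ← pow_zero (α : ℂ)]

theorem isDegreeOne_iff {R : Subring ℂ} (P : Ideal R) (p : ℕ) :
    IsDegreeOne P p ↔ Pool.Agent.X309.Sp P p :=
  ⟨fun h => ⟨h.prime, h.odd, h.isPrime, h.norm_eq, h.unramified⟩,
    fun h => ⟨h.prime, h.odd, h.ideal, h.norm, h.unr⟩⟩

/-- **Main theorem.** Let `R = ℤ + ℤ ω` be a subring of `ℂ` that is a lattice and a Dedekind domain.

(A) For `0 < κ ≤ 1/2` there is a `Q₀` such that for all prime ideals `P` of degree one unramified over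
an odd prime number `p`, all `k ≥ 12 / κ` with `Q = p ^ k ≥ Q₀`, all ideals `C` prime to `P` of norm at
most `Q ^ (1/2 - κ)`, all primitive characters `χ` of finite order with the conductor `P ^ k C`, all
`m ≥ 1` and all direct sums `V` of Hecke characters `ψ j` of types `(a j, b j)` with
`a j + b j = 2 m - 1`, `|a j - b j| ≤ Q ^ (1/2)` and conductors of norm at most `Q ^ (κ / 12)`, the
function `L(V ⊗ χ, s)` is entire and not zero at `s = m`.

(B) Let `P` be such a prime ideal, let `C` be a nonzero ideal prime to `P` and let `W` and `B` be real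
numbers.  There is a `k₀` such that for all `m ≥ 1` and all `V` as above with conductors of norm at
most `B` and `|a j - b j| ≤ W` there is an `r` such that for **all** `k ≥ k₀` the `L`-function of `V`
over the ray class field `K(C P ^ k)` is entire and its order of vanishing at `s = m` is `r`. -/
theorem result (R : Subring ℂ) (ω : ℂ) (hω : 0 < ω.im)
    (hR : ∀ z : ℂ, z ∈ R ↔ ∃ x y : ℤ, z = x + y * ω) (hded : IsDedekindDomain R) :
    (∀ κ : ℝ, 0 < κ → κ ≤ 1 / 2 → ∃ Q₀ : ℝ, ∀ (P C : Ideal R) (p k : ℕ), IsDegreeOne P p →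
      IsCoprime P C → 12 / κ ≤ k → Q₀ ≤ (p : ℝ) ^ k → norm C ≤ ((p : ℝ) ^ k) ^ (1 / 2 - κ) →
      ∀ χ : Ideal R → ℂ, IsHecke 0 0 (P ^ k * C) χ →
        ∀ (m n : ℕ) (a b : Fin n → ℕ) (ψ : Fin n → Ideal R → ℂ), 1 ≤ m →
          IsSum m n a b ψ (((p : ℝ) ^ k) ^ (1 / 2 : ℝ)) (((p : ℝ) ^ k) ^ (κ / 12)) →
          Nonvanishing m n a b ψ χ) ∧
    ∀ (P C : Ideal R) (p : ℕ), IsDegreeOne P p → IsCoprime P C → C ≠ ⊥ → ∀ W B : ℝ,
      ∃ k₀ : ℕ, ∀ (m n : ℕ) (a b : Fin n → ℕ) (ψ : Fin n → Ideal R → ℂ), 1 ≤ m →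
        IsSum m n a b ψ W B → ∃ r : ℕ, ∀ k : ℕ, k₀ ≤ k → ∃ L : ℂ → ℂ,
          IsLFunction m n a b ψ (C * P ^ k) L ∧ analyticOrderAt L (m : ℂ) = r := by
  classical
  have hbasic := Pool.Agent.W287.HK.h_basic
  have hcls := Pool.Agent.W571.HK.h_cls hbasic
  have hfp := Pool.Agent.W53.HK.h_fp hbasic hcls
  have hfpr := Pool.Agent.W366.HK.h_fpr hbasic hcls
  have hlat := Pool.Agent.W585.HK.h_lat hbasic
  have hker := Pool.Agent.W692.HK.h_ker hbasic hcls hfpr
  have hcnt := Pool.Agent.W584.HK.h_cnt hbasic hcls hfpr hlat hker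
  have hdivr := Pool.Agent.W513.HK.h_divr hbasic
  have hmu := Pool.Agent.W822.HK.h_mu hbasic
  have hcount := Pool.Agent.W240.HK.h_count hbasic hcnt hdivr
  have hdiv := Pool.Agent.W216.CY.t_div
  have hdec := Pool.Agent.W856.HK.h_dec hbasic
  have hgauss := Pool.Agent.W636.HK.h_gauss hbasic hfp
  have hpois := Pool.Agent.W348.HK.h_pois hbasic
  have htheta := Pool.Agent.TH936.HK.h_theta hbasic hfp hdec hgauss hpois hcnt
  have hafe := Pool.Agent.TH936.HK.h_afe hbasic hfp hcnt hgauss htheta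
  have htail := Pool.Agent.Y683.tailz hbasic hcnt hcount
  have hmain := Pool.Agent.Y683.mainb hbasic hcnt hdivr htail
  have hdual := Pool.Agent.Y683.dualb hdiv hbasic hcnt hker hfpr
  have hfin := Pool.Agent.Y683.finb hdiv hbasic hcnt hmu hmain hdual
  have hQ : Pool.Agent.W192.HK.QR R ω := ⟨hω, hR, hded⟩
  obtain ⟨C0, hC⟩ := Pool.Agent.Y683.AA.exists_idCount hbasic hcnt hQ
  obtain ⟨L0, hL0, K, ho⟩ := Pool.Agent.Y683.AA.exists_L hbasic hcls hcnt hfpr hfp hdec hgauss
    htheta hafe hfin hQ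
  refine ⟨fun κ hκ hκ1 => ?_, fun P C p hP hcop hC0 W B => ?_⟩
  · obtain ⟨Q0, -, hQ0⟩ := Pool.Agent.X309.tower_ok hbasic hfp hQ ho hκ hκ1
    refine ⟨Q0, fun P C p k hP hcop hk hQk hnC χ hχ m n a b ψ hm hψ => ?_⟩
    have hχ' := (isHecke_zero _ _).1 hχ
    have hok := hQ0 P C p k ((isDegreeOne_iff _ _).1 hP) hcop hQk hk hnC χ hχ'
    choose hab hW f hB hf using hψ
    have hs := fun j => Pool.Agent.X309.single hbasic hcls hQ hL0 hχ' hok (RingHom.id ℂ)
      ((isHecke_iff _ _ _ _).1 (hf j)) (hab j) hm (hW j) (hB j)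
    choose q θ h3 h4 L h5 h6 h7 using hs
    refine ⟨θ, fun s => ∏ j, L j s, fun j => ⟨⟨q j, (isHecke_iff _ _ _ _).2 (h3 j)⟩, h4 j⟩,
      ?_, fun s hs => ?_, ?_⟩
    · exact Differentiable.fun_finsetProd fun i _ => h5 i
    · exact hasProd_prod fun i _ => Pool.Agent.X309.euler hbasic hQ (h3 i) s _ (h6 i s hs)
    · exact Finset.prod_ne_zero_iff.mpr fun i _ => h7 i
  · have hP' := (isDegreeOne_iff _ _).1 hP
    have hP0 := hP'.ne hbasic hQ
    obtain ⟨k0, hk0⟩ := Pool.Agent.X309.tower_large hbasic hfp hQ ho hP' hcop hC0 W B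
    have hmod : ∀ q : Ideal R, Modulo q = Pool.Agent.Y683.AA.Dv 0 q := by
      intro q
      ext θ
      constructor
      · rintro ⟨f, h1, h2⟩
        exact ⟨f, (isHecke_zero _ _).1 h1, h2⟩
      · rintro ⟨f, h1, h2⟩
        exact ⟨f, (isHecke_zero _ _).2 h1, h2⟩
    have hne : ∀ k : ℕ, C * P ^ k ≠ ⊥ := fun k => mul_ne_zero hC0 (pow_ne_zero k hP0)
    have hfinM : ∀ k : ℕ, (Modulo (C * P ^ k)).Finite := fun k => by
      rw [hmod]
      exact (Pool.Agent.Y683.AA.hk_finite hbasic hcls hfp hQ hC 0 _).subset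
        (Pool.Agent.Y683.AA.dv_subset hbasic hQ 0 (hne k) le_rfl)
    refine ⟨k0, fun m n a b ψ hm hψ => ?_⟩
    choose hab hW f hB hf using hψ
    have hs := fun j => Pool.Agent.X309.twL hbasic hcls hQ hL0
      ((isHecke_iff _ _ _ _).1 (hf j)) (hab j) hm
    choose θ L hL using hs
    have hLc : ∀ (k : ℕ), ∀ χ ∈ (hfinM k).toFinset, ∃ c : Ideal R, C * P ^ k ≤ c ∧
        Pool.Agent.W192.HK.HC 0 c χ := by
      intro k χ hχ
      rw [Set.Finite.mem_toFinset] at hχ
      obtain ⟨c, h1, h2⟩ := hχ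
      exact ⟨c, h2, (isHecke_zero _ _).1 h1⟩
    have hdiff : ∀ (k : ℕ) (j : Fin n), ∀ χ ∈ (hfinM k).toFinset, Differentiable ℂ (L j χ) := by
      intro k j χ hχ
      obtain ⟨c, -, h2⟩ := hLc k χ hχ
      exact (hL j c χ h2).2.2.1.diff
    have hord : ∀ (k : ℕ) (j : Fin n), ∀ χ ∈ (hfinM k).toFinset,
        analyticOrderAt (L j χ) (m : ℂ) ≠ ⊤ := by
      intro k j χ hχ
      obtain ⟨c, -, h2⟩ := hLc k χ hχ
      exact (hL j c χ h2).2.2.1.ord
    have hana : ∀ (k : ℕ) (j : Fin n), ∀ χ ∈ (hfinM k).toFinset,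
        AnalyticAt ℂ (L j χ) (m : ℂ) := fun k j χ hχ => (hdiff k j χ hχ).analyticAt _
    have hprodA := fun (k : ℕ) (j : Fin n) => Pool.Agent.Y683.AA.orderNat_prod
      (hfinM k).toFinset (L j) (hana k j) (hord k j)
    have hprodA' : ∀ (k : ℕ) (j : Fin n),
        AnalyticAt ℂ (fun z => ∏ χ ∈ (hfinM k).toFinset, L j χ z) (m : ℂ) := fun k j =>
      (Pool.Agent.Y683.AA.order_prod (hfinM k).toFinset (L j) (hana k j)).1
    have hprod := fun k : ℕ => Pool.Agent.Y683.AA.orderNat_prod Finset.univ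
      (fun j z => ∏ χ ∈ (hfinM k).toFinset, L j χ z) (a := (m : ℂ)) (fun j _ => hprodA' k j)
      fun j _ => (hprodA k j).1
    have hstab : ∀ (k : ℕ), k0 ≤ k → ∀ j : Fin n,
        ∑ χ ∈ (hfinM k).toFinset, analyticOrderNatAt (L j χ) (m : ℂ) =
        ∑ χ ∈ (hfinM k0).toFinset, analyticOrderNatAt (L j χ) (m : ℂ) := by
      intro k hk j
      symm
      refine Finset.sum_subset (fun χ hχ => ?_) fun χ hχ hχ0 => ?_
      · rw [Set.Finite.mem_toFinset] at hχ ⊢
        obtain ⟨c, h1, h2⟩ := hχ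
        exact ⟨c, h1, (Ideal.mul_mono_right (Ideal.pow_le_pow_right hk)).trans h2⟩
      · obtain ⟨c, h1, h2⟩ := hLc k χ hχ
        obtain ⟨i, C', h3, h4, rfl⟩ := Pool.Agent.X309.cond_fac hbasic hQ hP' h1
        rcases le_or_gt k0 i with hi | hi
        · exact (hL j _ χ h2).2.2.2 W B (hW j) (hB j) (hk0 i C' hi h4 χ h2)
        · exfalso
          apply hχ0
          rw [Set.Finite.mem_toFinset]
          refine ⟨P ^ i * C', (isHecke_zero _ _).2 h2, ?_⟩
          rw [mul_comm C]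
          exact Ideal.mul_mono (Ideal.pow_le_pow_right hi.le) h4
    refine ⟨∑ j, ∑ χ ∈ (hfinM k0).toFinset, analyticOrderNatAt (L j χ) (m : ℂ), fun k hk => ?_⟩
    refine ⟨fun s => ∏ j, ∏ χ ∈ (hfinM k).toFinset, L j χ s, ⟨?_, θ, ?_, ?_⟩, ?_⟩
    · refine Differentiable.fun_finsetProd fun j _ => ?_
      exact Differentiable.fun_finsetProd fun χ hχ => hdiff k j χ hχ
    · intro j χ hχ
      obtain ⟨c, h1, h2⟩ := hLc k χ ((hfinM k).mem_toFinset.2 hχ)
      obtain ⟨⟨c', k3⟩, k4, -⟩ := hL j c χ h2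
      exact ⟨⟨c', (isHecke_iff _ _ _ _).2 k3⟩, k4⟩
    · intro s hs
      have hfp' : ∀ (j : Fin n) (P' : HeightOneSpectrum R),
          ∏ᶠ χ ∈ Modulo (C * P ^ k), (1 - θ j χ P'.asIdeal * (norm P'.asIdeal : ℂ) ^ (-s))⁻¹ =
          ∏ χ ∈ (hfinM k).toFinset,
            (1 - θ j χ P'.asIdeal * (norm P'.asIdeal : ℂ) ^ (-s))⁻¹ := fun j P' => by
        rw [finprod_mem_eq_finite_toFinset_prod _ (hfinM k)]
      simp only [hfp']
      refine hasProd_prod fun j _ => ?_
      refine hasProd_prod fun χ hχ => ?_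
      obtain ⟨c, h1, h2⟩ := hLc k χ hχ
      obtain ⟨⟨c', k3⟩, -, k4, -⟩ := hL j c χ h2
      exact Pool.Agent.X309.euler hbasic hQ k3 s _ (k4.sum s hs)
    · rw [← Nat.cast_analyticOrderNatAt (hprod k).1, (hprod k).2]
      congr 1
      refine Finset.sum_congr rfl fun j _ => ?_
      rw [(hprodA k j).2]
      exact hstab k hk j

end Pool.Agent.Results.MP_0b9e0b_ag.DegreeOneTowers
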