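import Pool.Agent.X303.Five
import Pool.Agent.X303.Fibre.Rank

/-!
# The formula of Beilinson and Bloch for varieties over function fields with models in a class

Let `k` be a global function field with the field of constants `𝔽` with `q` elements, the function field of
the smooth projective curve `C` over `𝔽`, and let `X` be a smooth projective variety over `k`, of pure
dimension `d`. `FibreData` and `IsFibreData` describe its Chow groups `CH^i(X)` and the invariants of the
geometric Galois group in its cohomology groups, `homTrivial D i` is the space `CH^i(X)_0`. Let `𝒳` be a
smooth projective model of `X` over one affine open subscheme `U` of `C` (`Model`, `IsModel`), and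
`C.H j = H^j(C̄, j_* R^(2 i - 1) f_* ℚ_ℓ)` (`IsCurveCoh`, `IsMiddle`), so that by the formula of Grothendieck
the `L`-function of `H^(2 i - 1)(X_k̄, ℚ_ℓ)` is the function `C.zeta q 2`. We assume that `𝒳` belongs to the class
of the schemes over `𝔽` that is generated by **all abelian varieties of dimension at most five** and **all
abelian varieties which over an algebraic closure are isogenous to products of elliptic curves and abelian
surfaces**, with any number of factors (`IsFiveOrSurfaces`).

The class `Generated` contains the schemes whose motives are direct summands of finite sums of twists of
motives of members, and it contains all of `Z`, `X`, `U = X ∖ Z` if it contains two of them. For example: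

* `X = E × Y`, where `Y` is a constant variety, any product of elliptic curves and abelian surfaces over
  `𝔽`, and `E` is any elliptic curve over `k = 𝔽(t)`, isotrivial or not, such that its elliptic surface is
  rational, or an elliptic K3 surface which is the Kummer surface of a product of two elliptic curves; `E`
  may have positive rank. (The model is an open part of the product of `Y` with the elliptic surface; the
  components of the fibres that have to be removed are rational curves, and elliptic curves.)
* `X = B × Y` where `B` is a curve of genus at most two over `k` such that a model of `B` is a surface
  dominated by a product of two curves of genus at most two, and the normalisations of the components of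
  the singular fibres have genus at most two.
* All constant varieties `X = Y ⊗ k` such that `Y × C` and `Y` are in the class.

The theorem: the space `CH^i(X)` is finite-dimensional, and the dimension of `CH^i(X)_0` is the order of the
zero of the `L`-function of `H^(2 i - 1)(X_k̄, ℚ_ℓ)` at `s = i`. This is the formula of Beilinson and Bloch, for
each `1 ≤ i ≤ d`.

Properties of the theory of cycles that are used for the abelian varieties (`IsChowS`, `IsMotivic`):
Poincaré duality, the formal properties of correspondences, the nilpotence of homologically trivial
correspondences (Kimura), the operation of the Frobenius endomorphism on higher Chow groups, the vanishing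
of the higher rational `K`-groups of a finite field (Quillen), and the algebraicity of the classes in `AlgS`
(theorems of Tate, Markman and Ramón Marí). The Tate conjecture for these abelian varieties is proved in the
starting files. For all varieties over finite fields the passage from the conjectures of Tate and Beilinson
to the formula is due to Jannsen; here it is proved for one model `𝒳`: cycles on fibres over `U` vanish in
`CH^i(𝒳) ⊗ ℚ`, and the classes in `H^(2 i)(X_k̄)` which are invariant are separated by intersection numbers.
-/

set_option autoImplicit false

namespace Pool.Agent.Results.MP_0b9e0b_ag.GeneratedModels

open Pool.Agent.W495.TA Pool.Agent.W495.FM Pool.Agent.Y137.GN Pool.Agent.X303.TBDual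
  Pool.Agent.X303.Fibre Module

/-- **The formula of Beilinson and Bloch** for the smooth projective varieties over a global function
field with a model in the class generated by all abelian varieties of dimension at most five and all products of
elliptic curves and abelian surfaces. -/
theorem result (p : ℕ) [Fact p.Prime] (ν : PadicAlgCl p ≃+* ℂ) (V : Type) (T : Homology ℂ V)
    (hT : IsHomology T) (𝒳 : V) (h𝒳 : Generated T (IsFiveOrSurfaces p ν T) 𝒳) (D : FibreData ℂ) (d : ℕ)
    (hD : IsFibreData D d) (i j : ℕ) (hi : 1 ≤ i) (hij : i + j = d)
    (m : Model T 𝒳 (2 * (d + 1 - i)) (d + 1 - i) D i) (hm : IsModel m)
    (m' : Model T 𝒳 (2 * (d + 1 - j)) (d + 1 - j) D j) (hm' : IsModel m') (q : ℕ) (hq : 1 < q)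
    (C : FrobCoh) (hC : IsCurveCoh C q (2 * i - 1)) (hW : IsMiddle m q (C.F 1)) :
    FiniteDimensional ℚ (D.CH i) ∧
      meromorphicOrderAt (C.zeta q 2) (i : ℂ) = ((finrank ℚ (homTrivial D i) : ℤ) : WithTop ℤ) :=
  order_eq hT (tb_five hT h𝒳) hD hij hi hm hm' hq hC hW

end Pool.Agent.Results.MP_0b9e0b_ag.GeneratedModels
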