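import Mathlib
import Pool.Agent.X317.Iso.Abel

/-!
# The formula of Beilinson and Bloch for isotrivial abelian varieties over function fields

Let `F` be any global function field of characteristic `p`, with the field of constants `𝔽` with
`q = p ^ e` elements, and let `X` be an isotrivial abelian variety over `F`: over some finite Galois
extension `F'` of `F`, with a field of constants `𝔽'` of degree `s` over `𝔽`, it becomes the constant
abelian variety `A ⊗ F'` of an abelian variety `A` over `𝔽'`. So `X` is any twist of a constant abelian
variety, with any places of bad reduction. The starting files treat constant abelian varieties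
(`X = A ⊗ F`).

The notation. `K'` is the compositum of `F'` and the algebraic closure `𝔽̄` of `𝔽`, `G` is the group of
the automorphisms of `K' / F` that act on `𝔽̄` as an integral power of the geometric Frobenius, `δ`
is this exponent (`dg δ w`, the degree of `w`); its kernel is finite. The element `z` of `G` is the
identity on `F'` and the `s`-th power of the geometric Frobenius on `𝔽̄`: it is central. The group `G`
acts on the set `𝒞` of the places of `K' / 𝔽̄`, that is on the points of the smooth projective curve over
`𝔽̄` with the function field `K'`, and on its first cohomology group `W` (`σ`). The elements `w` of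
positive degree `m` are the Frobenius automorphisms of forms of this curve over the extension of `𝔽` of
degree `m`, the number of their fixed points is `1 + q ^ m - trace (w)` (`IsCover`). The places `v` of
`F` are the orbits of `G` in `𝒞`; `pt v` is a place of `K'` over `v`, `fr v` is an element of its
decomposition group of degree `deg v`, the degree of the place `v` (`IsPlaces`). The inertia group of
`pt v` is `inertia δ (pt v)`.

The first cohomology group `V` of `X` is a representation `ρ` of `G` (coefficients extended to the
complex numbers), and `ρ z` is the Frobenius endomorphism of `A` over `𝔽'`. We make the assumptions of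
the starting file `ConstantFlippedFrobenius` about its eigenvalues (`IsFlippedType`): they are conjugates of finitely many
numbers `π i` in CM fields `K i`, and numbers in a set `S` of supersingular Weil numbers, and

* any two embeddings `x`, `y` of the fields `K i`, which are different and not conjugate, are
  `Flipped`: an automorphism of the complex numbers maps `(x, y)` to `(x, bar y)`, to `(bar x, y)` or
  to `(y, bar x)`;
* `deg (K i) < 3 * spread`, where `spread` is the sum of the `(2 * slope - 1) ^ 2` over all embeddings
  of `K i` in an algebraic closure of the field of `p`-adic numbers; and `deg (K i) < 2 * spread` if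
  `S` is not empty.

All products of elliptic curves satisfy them; so all products (with any number of factors) of
elliptic curves with constant `j`-invariants over `F`, and all twists of such products, are covered:
for example the quadratic twists `D y ^ 2 = f (x)` of constant elliptic curves by all `D ∈ F`. There
are no assumptions about the field `F`, the extension `F'` or its ramification.

Theorem. For all numbers `k ≥ 0` (the codimension is `i = k + 1`) the `L`-function of
`H ^ (2 i - 1) (X)`, the product over all places `v` of `F` of the factors
`det (1 - q ^ (- t deg v) fr v | H ^ (2 i - 1) (X) ^ (inertia group)) ⁻¹` (`eulerFactor`), converges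
for `Re t > i + 1 / 2`, has a meromorphic continuation to the complex plane, and its order at `t = i`
is the dimension of the space `algClasses` of those linear combinations, in
`H ^ (2 i - 1) (X) ⊗ H ^ 1 (𝒞)`, of products of `i - 1` classes of divisors on `A` and a correspondence
between `A` and `𝒞`, on which every `w` in `G` acts as multiplication by `q ^ (i deg w)`, that is which
are, after the Tate twist by `i`, invariant under the Galois group of `F`.

By the theorems of Tate and of Kahn (based on Kimura, O'Sullivan, Soulé, Geisser), as in the starting
files, `CH ^ i (X_F')_0` is identified, compatibly with the action of the Galois group of `F' / F`, with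
a rational structure of the space of the classes as above that are invariant under `z`; its invariants
are `CH ^ i (X)_0`. So the dimension is that of `CH ^ i (X)_0` and the formula of Beilinson and Bloch
holds for `X`, in all codimensions. (The formula over `F'` only gives the sum, over the irreducible
representations of the Galois group of `F' / F`, of the orders of the twisted `L`-functions.)

The idea of the proof: the sum of `trace (w | H ^ (2 i - 1) (X))`, multiplied by the number of fixed
points of `w` in `𝒞`, over all `w` of degree `m`, is computed in two ways: it is a sum over the places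
of `F` of the traces of Frobenius on inertia invariants, and it is the trace of the Frobenius on the
invariants of the kernel of `δ` in `H ^ (2 i - 1) (X) ⊗ H ^ * (𝒞)`.
-/

set_option autoImplicit false

namespace Pool.Agent.Results.MP_0b9e0b_ag.IsotrivialAbelianVarieties

open NumberField Module Pool.Agent.H194R3.CM Pool.Agent.X317.Iso

/-- **The formula of Beilinson and Bloch for isotrivial abelian varieties.** -/
theorem result (p : ℕ) [Fact p.Prime] (e : ℕ) (he : 0 < e)
    {G 𝒞 : Type} [Group G] [MulAction G 𝒞] (δ : G →* Multiplicative ℤ)
    {W : Type} [AddCommGroup W] [Module ℂ W] [FiniteDimensional ℂ W] (σ : Representation ℂ G W)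
    (s : ℕ) (z : G) (hcover : IsCover 𝒞 δ σ (p ^ e) s z)
    {P : Type} (pt : P → 𝒞) (fr : P → G) (deg : P → ℕ) (H : IsPlaces δ pt fr deg)
    {I : Type} [Finite I] (K : I → Type) [∀ i, Field (K i)] [∀ i, NumberField (K i)]
    [∀ i, IsCMField (K i)] (π : ∀ i, K i)
    {V : Type} [AddCommGroup V] [Module ℂ V] [FiniteDimensional ℂ V] (ρ : Representation ℂ G V)
    (hρ : IsFlippedType p (e * s) K π (ρ z)) (k : ℕ) :
    ∃ Λ : ℂ → ℂ, IsLFunction δ (extRep ρ (2 * k + 1)) H (p ^ e) (2 * k + 1) Λ ∧
      meromorphicOrderAt Λ ((k : ℂ) + 1) =
        ((finrank ℂ (algClasses δ ρ σ z s ((p ^ e : ℕ) : ℂ) k) : ℤ) : WithTop ℤ) := by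
  obtain ⟨hweil, hflip, hspread, S, hS, hSspread, hspan⟩ := hρ
  have hp1 : 1 < p := (Fact.out : p.Prime).one_lt
  have hes : 0 < e * s := Nat.mul_pos he hcover.pos
  have hp0 : (0 : ℝ) < (p : ℝ) ^ (e * s) :=
    pow_pos (by exact_mod_cast (Fact.out : p.Prime).pos) _
  have hR : (((p ^ e : ℕ) : ℝ)) ^ s = (p : ℝ) ^ (e * s) := by
    push_cast
    rw [← pow_mul]
  have hC : (((p ^ e : ℕ) : ℂ)) ^ s = (p : ℂ) ^ (e * s) := by
    push_cast
    rw [← pow_mul]
  refine abel δ ρ σ (p ^ e) s (Nat.one_lt_pow he.ne' hp1) z hcover H k ?_ ?_
  · rw [hR, eq_top_iff, ← hspan]
    refine Submodule.span_mono ?_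
    rintro v (⟨i, τ, hv⟩ | ⟨μ, hμ, hv⟩)
    · exact ⟨τ (π i), hweil i τ, hv⟩
    · refine ⟨μ, ?_, hv⟩
      obtain ⟨N, hN, h1⟩ := hS μ hμ
      have h2 := congrArg norm h1
      rw [norm_pow, norm_pow, norm_pow, Complex.norm_natCast, pow_mul] at h2
      exact (pow_left_inj₀ (by positivity) hp0.le hN.ne').1 h2
  · intro c hc hcn x hx hFx
    rw [hR] at hcn
    rw [hC] at hFx ⊢
    have hc0 : c ≠ 0 := by
      rintro rfl
      rw [norm_zero] at hcn
      norm_num at hcn
      exact hp0.ne hcn
    refine Pool.Agent.W484.BB.eigenclass_mem p (e * s) hes π hweil hflip hspread S hS hSspread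
      (ρ z) hspan c hc hcn k 1 one_pos (((p : ℂ) ^ (e * s)) ^ (k + 1) / c) ?_ x hx ?_
    · rw [pow_one, pow_one, div_mul_cancel₀ _ hc0]
    · rw [pow_one]
      exact hFx

end Pool.Agent.Results.MP_0b9e0b_ag.IsotrivialAbelianVarieties
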