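import Pool.Agent.X317.Pro.Series
import Pool.Agent.W343.BSD.Stmt

/-!
# The formula of Beilinson and Bloch in all codimensions in the towers of `ℓ`-extensions

Let `K` be a function field of one variable over the field `k` with `q` elements, `C` its curve, let
`ℓ` be any prime number different from the characteristic (for instance `ℓ = 2`), and `S` a set of
places of `K`. Let `K_S(ℓ)` be the maximal pro-`ℓ`-extension of `K` unramified outside `S`. We consider
ALL the finite extensions `L` of `K` contained in `K_S(ℓ)`, for constant varieties `X = X₀ ⊗ L`, `X₀` a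
smooth projective variety over `k`, for instance an abelian variety, or a product of curves.

The field of constants `k'` of `L` may be larger than `k`; let `q'` be its number of elements, and `C_L`
the curve over `k'` with the function field `L`. Let `P` be the numerator of the zeta function of `C_L`
(`IsNumerator`), the reciprocal characteristic polynomial of the Frobenius on `H¹(C_L)`. If the
`α j` are the eigenvalues of the Frobenius of `k'` on `H^(2 i - 1)(X₀)`, then

* `P(α j / q' ^ i) ≠ 0` for all `j` says that `q' ^ i` is not an eigenvalue of the Frobenius on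
  `H^(2 i - 1)(X₀) ⊗ H¹(C_L)`. If the motive of `X₀` is finite-dimensional (abelian varieties, products
  of curves), this implies `CH^i(X)_0 = 0`: it is the group of the cycles of the motive
  `h^(2 i - 1)(X₀) ⊗ h¹(C_L)`, the Frobenius acts on them as `q' ^ i`, and a power of its characteristic
  polynomial on the motive vanishes (Kimura, Soulé).
* The `L`-function of `H^(2 i - 1)(X)` is the product over all places `w` of `L` of the inverses of the
  factors `∏ (1 - (α j T) ^ (deg w))`, `T = q' ^ (-s)`.

`BothSidesZero` says that `P(α j / q' ^ i) ≠ 0` for all `j`, and that the `L`-function is a rational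
function of `T` with neither a zero nor a pole at `s = i`. So both sides of the formula are zero.

Theorem (A): the condition, on `X₀`, `K` and `S` only, is that modulo `ℓ` none of the
numbers `x / q ^ i`, `x` a Frobenius eigenvalue on `H^(2 i - 1)(X₀)`, is a zero of the numerator of the zeta
function of `C`, or a root of unity of order dividing the degree of a place in `S` (`Avoids`). Then the
formula holds for all `L` in `K_S(ℓ)`, with both sides zero. The genera of the curves `C_L` and the
fields of constants are not bounded, and `S` can have positive density.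

Theorem (B): let `ℓ` divide `q - 1` and let `A` be an abelian variety of dimension `g` for which the
characteristic polynomial of Frobenius is, modulo `ℓ`, the minimal polynomial of an element of order
`ℓ ^ g + 1` (its conjugates are the powers with exponents `ℓ ^ a`, `a < 2 g`). Let `S` be the set of the
places whose degrees are prime to `ℓ ^ g + 1`; the condition on `K` is that the numerator of its zeta
function has modulo `ℓ` no roots of unity `x ≠ 1` of order dividing `ℓ ^ g + 1` as zeros (no condition
for `K = k(t)`). Then the formula holds for `A ⊗ L` in ALL codimensions at once, with both sides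
zero, for all `L` in `K_S(ℓ)`. In particular the group of points of `A` in `K_S(ℓ)` is a torsion group.

The proof compares the zeta functions of `C_L` and `C` modulo `ℓ` (in the style of the formula of Kida
and of Deuring and Shafarevich): all residue degrees are powers of `ℓ`.
-/

set_option autoImplicit false
set_option linter.all false
set_option maxHeartbeats 1000000

open FF Module Polynomial Pool.Agent.W343.BSD Pool.Agent.X317.Pro

namespace Pool.Agent.Results.MP_0b9e0b_ag.PowerTowers

/-- `f` is the polynomial with the zeros `α j`, and they have the absolute value `q ^ (w / 2)`: the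
characteristic polynomial and the eigenvalues of the Frobenius on a cohomology group of degree `w` of a
smooth projective variety over the field with `q` elements. -/
structure IsSpectrum (q w : ℕ) {ι : Type} [Fintype ι] (α : ι → ℂ) (f : ℤ[X]) : Prop where
  charpoly : f.map (Int.castRingHom ℂ) = ∏ j, (X - C (α j))
  weight : ∀ j, ‖α j‖ ^ 2 = (q : ℝ) ^ w

/-- No number `x / q ^ i`, where `x` is a zero of `f` in an algebraic closure `FBar ℓ` of the field with
`ℓ` elements, is a zero of `Q`. -/
def Avoids (ℓ q i : ℕ) [Fact ℓ.Prime] (f Q : ℤ[X]) : Prop :=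
  ∀ x : FBar ℓ, aeval x f = 0 → aeval (x / (q : FBar ℓ) ^ i) Q ≠ 0

/-- `f` is modulo `ℓ` the minimal polynomial of an element `x` of order `ℓ ^ g + 1`. -/
def IsMinimal (ℓ g : ℕ) [Fact ℓ.Prime] (f : ℤ[X]) : Prop :=
  ∃ x : FBar ℓ, orderOf x = ℓ ^ g + 1 ∧
    f.map (Int.castRingHom (FBar ℓ)) = ∏ a : Fin (2 * g), (X - C (x ^ ℓ ^ (a : ℕ)))

/-- The place `w` of `L` lies over the place `v` of `K`, with the ramification index `e`. -/
def LiesOver {k K L : Type} [Field k] [Field K] [Algebra k K] [Field L] [Algebra k L]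
    [Algebra K L] (w : Place k L) (v : Place k K) (e : ℕ) : Prop :=
  0 < e ∧ ∀ f : K, w.ord (algebraMap K L f) = e * v.ord f

/-- `K` and `L` are function fields of curves with the fields of constants `k` and `k'`, and `L` is
contained in a Galois extension `M` of `K` of degree a power of `ℓ`, which is unramified
outside of the finite set `B` of places. -/
structure IsLayer (ℓ : ℕ) {k K : Type} (k' L M : Type) [Field k] [Field K] [Algebra k K]
    [Field k'] [Field L] [Algebra k' L] [Field M] [Algebra k M] [Algebra K M]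
    (B : Finset (Place k K)) : Prop where
  base : IsCurveField k K
  curve : IsCurveField k' L
  galois : IsGalois K M
  degree : ∃ t : ℕ, finrank K M = ℓ ^ t
  unramified : ∀ (v : Place k K) (w : Place k M) (e : ℕ), v ∉ B → LiesOver w v e → e = 1

/-- `P` is the numerator of the zeta function of `K`, the product over the places `v` of the
`(1 - T ^ deg v)⁻¹`, equal to `P(T) / ((1 - T) (1 - q T))`. -/
def IsNumerator (k K : Type) [Field k] [Field K] [Algebra k K] (P : ℤ[X]) : Prop :=
  (P : PowerSeries ℤ) * eulerProd (fun v : Place k K => S.deg v)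
      (fun v => 1 - PowerSeries.X ^ S.deg v) =
    (1 - PowerSeries.X) * (1 - PowerSeries.C (Nat.card k : ℤ) * PowerSeries.X)

/-- Both sides of the formula of Beilinson and Bloch are zero in codimension `i` over the function
field `L` with the field of constants `k`: `α j` are the Frobenius eigenvalues on `H^(2 i - 1)(X₀)`. -/
structure BothSidesZero (k L : Type) [Field k] [Field L] [Algebra k L] {ι : Type} [Fintype ι]
    (α : ι → ℂ) (i : ℕ) : Prop where
  cycles : ∃ P : ℤ[X], IsNumerator k L P ∧ ∀ j, aeval (α j / (Nat.card k : ℂ) ^ i) P ≠ 0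
  order : ∃ N D : ℂ[X], (N : PowerSeries ℂ) * eulerProd (fun w : Place k L => S.deg w)
      (fun w => ∏ j, (1 - PowerSeries.C (α j ^ S.deg w) * PowerSeries.X ^ S.deg w)) =
        (D : PowerSeries ℂ) ∧
    D.coeff 0 = 1 ∧ N.eval (((Nat.card k : ℂ) ^ i)⁻¹) ≠ 0 ∧ D.eval (((Nat.card k : ℂ) ^ i)⁻¹) ≠ 0

/-- Both sides are zero in codimension `i` over all finite extensions `L` of `K` in the maximal
pro-`ℓ`-extension unramified outside `B`: `α j` are the eigenvalues of the Frobenius of `k` on
`H^(2 i - 1)(X₀)`, those of the Frobenius of `k'` are the powers with exponent `[k' : k]`. -/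
def HoldsInTower (ℓ : ℕ) {k K : Type} [Field k] [Field K] [Algebra k K] (B : Finset (Place k K))
    {ι : Type} [Fintype ι] (α : ι → ℂ) (i : ℕ) : Prop :=
  ∀ (k' L M : Type) [Field k'] [Finite k'] [Field L] [Algebra k' L] [Algebra k k']
    [Algebra k L] [Algebra K L] [IsScalarTower k K L] [IsScalarTower k k' L] [Field M]
    [Algebra k M] [Algebra K M] [Algebra L M] [IsScalarTower K L M] [IsScalarTower k K M]
    [IsScalarTower k L M], IsLayer ℓ k' L M B →
    BothSidesZero k' L (fun j => α j ^ finrank k k') i

theorem isNumerator_iff {k K : Type} [Field k] [Finite k] [Field K] [Algebra k K] [FF.IsFF k K]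
    (P : ℤ[X]) : IsNumerator k K P ↔ IsZetaNum k K P := by
  unfold IsNumerator IsZetaNum
  simp only [S.deg_eq]

section core

variable {k K k' L M : Type} [Field k] [Finite k] [Field K] [Algebra k K] [Field k'] [Finite k']
  [Field L] [Algebra k' L] [Algebra k k'] [Algebra k L] [Algebra K L] [IsScalarTower k K L]
  [IsScalarTower k k' L] [Field M] [Algebra k M] [Algebra K M] [Algebra L M]
  [IsScalarTower K L M] [IsScalarTower k K M] [IsScalarTower k L M]

theorem core {ℓ : ℕ} [hl : Fact ℓ.Prime] (hℓ : (ℓ : k) ≠ 0) {B : Finset (Place k K)}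
    (h : IsLayer ℓ k' L M B) {P : ℤ[X]} (hP' : IsNumerator k K P)
    {ι : Type} [Fintype ι] (a : ι → integralClosure ℤ ℂ) {i : ℕ} (hi : 0 < i)
    (hw : ∀ j, ‖(a j : ℂ)‖ ^ 2 = (Nat.card k : ℝ) ^ (2 * i - 1))
    (φ : integralClosure ℤ ℂ →+* FBar ℓ)
    (hx : ∀ j, aeval (φ (a j) / (Nat.card k : FBar ℓ) ^ i) P ≠ 0)
    (hv : ∀ j, ∀ v ∈ B, (φ (a j) / (Nat.card k : FBar ℓ) ^ i) ^ S.deg v ≠ 1) :
    BothSidesZero k' L (fun j => (a j : ℂ) ^ finrank k k') i := by
  classical
  have i1 : FF.IsFF k K := ⟨h.base.essFiniteType, h.base.trdeg_eq_one⟩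
  have i2 : FF.IsFF k' L := ⟨h.curve.essFiniteType, h.curve.trdeg_eq_one⟩
  have hP := (isNumerator_iff P).1 hP'
  clear hP'
  obtain ⟨t, ht⟩ := h.degree
  have i3 : FiniteDimensional K M := Module.finite_of_finrank_pos (by
    rw [ht]; exact pow_pos hl.out.pos t)
  have i4 : IsGalois K M := h.galois
  have i5 : FiniteDimensional K L := FiniteDimensional.left K L M
  have i6 : FiniteDimensional L M := FiniteDimensional.right K L M
  have i7 : Algebra.IsSeparable K L := Algebra.isSeparable_tower_bot_of_isSeparable K L M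
  have i8 : Algebra.IsSeparable L M := Algebra.isSeparable_tower_top_of_isSeparable K L M
  have i9 : FF.IsFF k L := isFF_of_finite (K := K)
  have i10 : FF.IsFF k M := isFF_of_finite (K := K)
  have i11 : FiniteDimensional k k' := Module.Finite.of_finite
  have hqk : ((Nat.card k : ℕ) : ZMod ℓ) ≠ 0 := card_ne_zero_mod hℓ
  have hq : ((Nat.card k : ℕ) : FBar ℓ) ≠ 0 := by
    have h1 := (map_ne_zero_iff (algebraMap (ZMod ℓ) (FBar ℓ)) (RingHom.injective _)).2 hqk
    rwa [map_natCast] at h1
  have hcard : Nat.card k' = Nat.card k ^ finrank k k' :=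
    Module.natCard_eq_pow_finrank (K := k) (V := k')
  have hq' : ((Nat.card k' : ℕ) : FBar ℓ) ≠ 0 := by
    rw [hcard, Nat.cast_pow]
    exact pow_ne_zero _ hq
  have hres := resPow_of_tower k K L M ht
  obtain ⟨s, -, hs⟩ := (Nat.dvd_prime_pow hl.out).1
    (show finrank K L ∣ ℓ ^ t from ⟨finrank L M, by rw [finrank_mul_finrank, ht]⟩)
  obtain ⟨P', hP', -⟩ := exists_num k' L h.curve.algClosed
  have hne : ∀ j, aeval ((a j : ℂ) ^ finrank k k' / (Nat.card k' : ℂ) ^ i) P' ≠ 0 := by
    intro j
    have h1 := aeval_ne_zero (k' := k') h.base.algClosed hres hs B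
      (unram_of_tower k K L M (fun v w e hv hov => h.unramified v w e hv hov)) hP hP'
      (hx j) (fun v hvB => by rw [← S.deg_eq]; exact hv j v hvB)
    have h2 : (φ (a j) / (Nat.card k : FBar ℓ) ^ i) ^ finrank k k' =
        φ (a j ^ finrank k k') / ((Nat.card k' : ℕ) : FBar ℓ) ^ i := by
      rw [div_pow, map_pow, hcard, Nat.cast_pow, ← pow_mul, ← pow_mul, mul_comm i]
    rw [h2] at h1
    have h3 := aeval_ne φ (a j ^ finrank k k') hq' i P' h1
    simpa using h3
  have hone : 1 < Nat.card k' := Finite.one_lt_card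
  have hser := lseries hP' (fun j => (a j : ℂ) ^ finrank k k')
  simp only [← S.deg_eq] at hser
  refine ⟨⟨P', (isNumerator_iff P').2 hP', hne⟩, ⟨num P' _, den (Nat.card k') _, hser,
    den_coeff_zero _ _, num_eval P' _ hne, den_eval hone hi _ fun j => ?_⟩⟩
  rw [norm_pow, ← pow_mul, mul_comm (finrank k k'), pow_mul, hw, hcard, ← pow_mul]
  push_cast
  rw [← pow_mul, mul_comm]

end core

/-- the condition on `X₀` gives the conditions on the reductions of the eigenvalues -/
theorem integral_spectrum {q w : ℕ} {ι : Type} [Fintype ι] {α : ι → ℂ} {f : ℤ[X]}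
    (h : IsSpectrum q w α f) : ∃ a : ι → integralClosure ℤ ℂ, (∀ j, (a j : ℂ) = α j) ∧
      ∀ {R : Type} [CommRing R] (φ : integralClosure ℤ ℂ →+* R),
        f.map (Int.castRingHom R) = ∏ j, (X - C (φ (a j))) := by
  classical
  have hmon : f.Monic := by
    have h1 : (f.map (Int.castRingHom ℂ)).Monic := by
      rw [h.charpoly]
      exact monic_prod_of_monic _ _ fun j _ => monic_X_sub_C _
    exact monic_of_injective (Int.castRingHom ℂ).injective_int h1
  have hint : ∀ j, IsIntegral ℤ (α j) := by
    intro j
    refine ⟨f, hmon, ?_⟩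
    have h1 : (f.map (Int.castRingHom ℂ)).eval (α j) = 0 := by
      rw [h.charpoly, eval_prod, Finset.prod_eq_zero (Finset.mem_univ j)]
      simp
    rw [eval_map] at h1
    exact h1
  refine ⟨fun j => ⟨α j, hint j⟩, fun j => rfl, ?_⟩
  intro R _ φ
  have h1 : f.map (Int.castRingHom (integralClosure ℤ ℂ)) =
      ∏ j, (X - C (⟨α j, hint j⟩ : integralClosure ℤ ℂ)) := by
    have hinj : Function.Injective (algebraMap (integralClosure ℤ ℂ) ℂ) :=
      Subtype.val_injective
    apply map_injective _ hinj
    rw [Polynomial.map_map, Polynomial.map_prod]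
    have h2 : (algebraMap (integralClosure ℤ ℂ) ℂ).comp
        (Int.castRingHom (integralClosure ℤ ℂ)) = Int.castRingHom ℂ := RingHom.ext_int _ _
    rw [h2, h.charpoly]
    refine Finset.prod_congr rfl fun j _ => ?_
    rw [Polynomial.map_sub, map_X, map_C]
    rfl
  have h3 := congrArg (Polynomial.map φ) h1
  rw [Polynomial.map_map, Polynomial.map_prod] at h3
  have h2 : φ.comp (Int.castRingHom (integralClosure ℤ ℂ)) = Int.castRingHom R :=
    RingHom.ext_int _ _
  rw [h2] at h3
  rw [h3]
  refine Finset.prod_congr rfl fun j _ => ?_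
  rw [Polynomial.map_sub, map_X, map_C]

/-- (A) Constant varieties in codimension `i`. -/
def ConstantVarieties (ℓ : ℕ) [Fact ℓ.Prime] (k K : Type) [Field k] [Field K] [Algebra k K]
    (P : ℤ[X]) : Prop :=
  ∀ (ι : Type) [Fintype ι] (α : ι → ℂ) (f : ℤ[X]) (i : ℕ), 0 < i →
    IsSpectrum (Nat.card k) (2 * i - 1) α f → Avoids ℓ (Nat.card k) i f P →
    ∀ B : Finset (Place k K), (∀ v ∈ B, Avoids ℓ (Nat.card k) i f (1 - X ^ S.deg v)) →
    HoldsInTower ℓ B α i

/-- No root of unity `x ≠ 1` of order dividing `N` is a zero of `P` modulo `ℓ`. -/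
def NoRootsOfUnity (ℓ N : ℕ) [Fact ℓ.Prime] (P : ℤ[X]) : Prop :=
  ∀ x : FBar ℓ, x ^ N = 1 → x ≠ 1 → aeval x P ≠ 0

/-- (B) Abelian varieties in all codimensions `i = m + 1`; the eigenvalues of Frobenius on the cohomology
of degree `2 m + 1` are the products of `2 m + 1` of the eigenvalues on the first cohomology. -/
def AbelianVarieties (ℓ : ℕ) [Fact ℓ.Prime] (k K : Type) [Field k] [Field K] [Algebra k K]
    (P : ℤ[X]) : Prop :=
  ((Nat.card k : ℕ) : ZMod ℓ) = 1 → ∀ (g : ℕ) (α : Fin (2 * g) → ℂ) (f : ℤ[X]),
    IsSpectrum (Nat.card k) 1 α f → IsMinimal ℓ g f → NoRootsOfUnity ℓ (ℓ ^ g + 1) P →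
    ∀ B : Finset (Place k K), (∀ v ∈ B, Nat.Coprime (S.deg v) (ℓ ^ g + 1)) →
    ∀ m : ℕ, HoldsInTower ℓ B (fun T : {T : Finset (Fin (2 * g)) // T.card = 2 * m + 1} =>
      ∏ j ∈ T.1, α j) (m + 1)

/-- **The formula of Beilinson and Bloch in the towers of `ℓ`-extensions.** `P` is the numerator of the
zeta function of `K`. -/
theorem result (k K : Type) [Field k] [Finite k] [Field K] [Algebra k K] (ℓ : ℕ) [Fact ℓ.Prime]
    (hℓ : (ℓ : k) ≠ 0) (P : ℤ[X]) (hP : IsNumerator k K P) :
    ConstantVarieties ℓ k K P ∧ AbelianVarieties ℓ k K P := by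
  classical
  obtain ⟨φ⟩ := exists_red ℓ
  refine ⟨?_, ?_⟩
  · intro ι _ α f i hi hα hA B hB
    intro k' L M _ _ _ _ _ _ _ _ _ _ _ _ _ _ _ _ hL
    obtain ⟨a, ha, hf⟩ := integral_spectrum hα
    have h1 := hf φ
    have hroot : ∀ j, aeval (φ (a j)) f = 0 := by
      intro j
      have h2 : (f.map (Int.castRingHom (FBar ℓ))).eval (φ (a j)) = 0 := by
        rw [h1, eval_prod, Finset.prod_eq_zero (Finset.mem_univ j)]
        simp
      rw [eval_map] at h2
      exact h2
    have h3 := core hℓ hL hP a hi (fun j => by rw [ha]; exact hα.weight j) φ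
      (fun j => hA _ (hroot j)) (fun j v hv h4 => by
        have h5 := hB v hv _ (hroot j)
        apply h5
        rw [map_sub, map_one, map_pow, aeval_X, h4, sub_self])
    simpa only [ha] using h3
  · intro hq g α f hα hmin hPx B hB m
    intro k' L M _ _ _ _ _ _ _ _ _ _ _ _ _ _ _ _ hL
    obtain ⟨a, ha, hf⟩ := integral_spectrum hα
    have h1 := hf φ
    obtain ⟨x, hx, hfx⟩ := hmin
    have hqF : ((Nat.card k : ℕ) : FBar ℓ) = 1 := by
      have h2 := congrArg (algebraMap (ZMod ℓ) (FBar ℓ)) hq
      rwa [map_natCast, map_one] at h2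
    -- the reductions of the eigenvalues
    have hperm : ∃ σ : Equiv.Perm (Fin (2 * g)), ∀ j, φ (a j) = x ^ ℓ ^ (σ j : ℕ) := by
      have h2 : ∏ j, (X - C (φ (a j))) = ∏ b : Fin (2 * g), (X - C (x ^ ℓ ^ (b : ℕ))) := by
        rw [← h1, hfx]
      have h3 := congrArg Polynomial.roots h2
      have h4 : ∀ F : Fin (2 * g) → FBar ℓ, (∏ j, (X - C (F j))).roots =
          Multiset.map F Finset.univ.val := by
        intro F
        have h5 := roots_multiset_prod_X_sub_C (Multiset.map F Finset.univ.val)
        rw [Multiset.map_map] at h5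
        exact h5
      rw [h4, h4] at h3
      exact exists_perm_of_map _ _ h3
    obtain ⟨σ, hσ⟩ := hperm
    have hprod : ∀ T : {T : Finset (Fin (2 * g)) // T.card = 2 * m + 1},
        φ (∏ j ∈ T.1, a j) ≠ 1 ∧ φ (∏ j ∈ T.1, a j) ^ (ℓ ^ g + 1) = 1 := by
      intro T
      have hinj : Set.InjOn (fun j : Fin (2 * g) => (σ j : ℕ)) (T.1 : Set (Fin (2 * g))) := by
        intro j _ j' _ h
        exact σ.injective (Fin.ext h)
      have h2 := prod_ne_one (F := FBar ℓ) (Fact.out : ℓ.Prime).two_le hx
        (T.1.image fun j => (σ j : ℕ)) (by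
          intro b hb
          rw [Finset.mem_image] at hb
          obtain ⟨j, -, rfl⟩ := hb
          exact (σ j).2) (by
          rw [Finset.card_image_of_injOn hinj, T.2]
          exact ⟨m, rfl⟩)
      rw [Finset.prod_image hinj] at h2
      rw [map_prod, Finset.prod_congr rfl fun j _ => hσ j]
      exact h2
    have h3 := core hℓ hL hP
      (fun T : {T : Finset (Fin (2 * g)) // T.card = 2 * m + 1} => ∏ j ∈ T.1, a j)
      (Nat.succ_pos m) (fun T => by
        have h4 : ((∏ j ∈ T.1, a j : integralClosure ℤ ℂ) : ℂ) = ∏ j ∈ T.1, α j := by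
          have h5 := map_prod (algebraMap (integralClosure ℤ ℂ) ℂ) a T.1
          rw [show ((∏ j ∈ T.1, a j : integralClosure ℤ ℂ) : ℂ) =
            algebraMap (integralClosure ℤ ℂ) ℂ (∏ j ∈ T.1, a j) from rfl, h5]
          exact Finset.prod_congr rfl fun j _ => ha j
        rw [h4, norm_prod, ← Finset.prod_pow, Finset.prod_congr rfl fun j _ => hα.weight j,
          Finset.prod_const, T.2, pow_one]
        congr 1) φ
      (fun T => by
        rw [hqF, one_pow, div_one]
        exact hPx _ (hprod T).2 (hprod T).1) (fun T v hv h4 => by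
        rw [hqF, one_pow, div_one] at h4
        have h5 := hB v hv
        have h6 : orderOf (φ (∏ j ∈ T.1, a j)) ∣ Nat.gcd (S.deg v) (ℓ ^ g + 1) :=
          Nat.dvd_gcd (orderOf_dvd_of_pow_eq_one h4) (orderOf_dvd_of_pow_eq_one (hprod T).2)
        rw [h5] at h6
        exact (hprod T).1 (orderOf_eq_one_iff.1 (Nat.dvd_one.1 h6)))
    have h7 : (fun T : {T : Finset (Fin (2 * g)) // T.card = 2 * m + 1} =>
        (∏ j ∈ T.1, α j) ^ finrank k k') =
        fun T => ((∏ j ∈ T.1, a j : integralClosure ℤ ℂ) : ℂ) ^ finrank k k' := by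
      funext T
      congr 1
      have h5 := map_prod (algebraMap (integralClosure ℤ ℂ) ℂ) a T.1
      rw [show ((∏ j ∈ T.1, a j : integralClosure ℤ ℂ) : ℂ) =
        algebraMap (integralClosure ℤ ℂ) ℂ (∏ j ∈ T.1, a j) from rfl, h5]
      exact (Finset.prod_congr rfl fun j _ => ha j).symm
    rw [h7]
    exact h3

end Pool.Agent.Results.MP_0b9e0b_ag.PowerTowers
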